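import Pool.Agent.Helper94_CYD.Crit
import Pool.Agent.Helper85_CYD.St1

/-!
# CYD, module C39: the derivative of the cyclotomic polynomial of order 39 is irreducible

It is irreducible modulo 71.
-/

set_option autoImplicit false
set_option maxRecDepth 100000

namespace Pool.Agent.CYD.H94

open Polynomial

/-- `X ^ 23` modulo the derivative and modulo 71 -/
def red39 : List ℕ :=
  [3, 0, 62, 12, 0, 53, 21, 0, 44, 30, 0, 35, 0, 42, 26, 0, 51, 17, 0, 60, 8, 0, 69]

theorem cert39_aux : certB 71 23 red39 (List.replicate 23 0) (1 :: List.replicate (23 - 1) 0)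
    (0 :: 1 :: List.replicate (23 - 2) 0) [false, false, false, true, true, true] = true := by
  decide +kernel

theorem root39_aux : rootB 71 red39 23 71 = true := by decide +kernel

theorem cyclotomic39 : cyclotomic 39 ℤ = X ^ 24 - X ^ 23 + X ^ 21 - X ^ 20 + X ^ 18 - X ^ 17 +
    X ^ 15 - X ^ 14 + X ^ 12 - X ^ 10 + X ^ 9 - X ^ 7 + X ^ 6 - X ^ 4 + X ^ 3 - X + 1 := by
  have h1 := cyclotomic_expand_eq_cyclotomic_mul (p := 13) (n := 3) (by norm_num) (by norm_num) ℤ
  rw [show 3 * 13 = 39 from rfl, cyclotomic_three] at h1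
  have h2 : (X ^ 2 + X + 1 : ℤ[X]) ≠ 0 := by
    rw [← cyclotomic_three]
    exact cyclotomic_ne_zero _ _
  apply mul_right_cancel₀ h2
  rw [← h1]
  simp only [map_add, map_pow, expand_X, map_one]
  ring

/-- the derivative -/
theorem derivative39 : derivative (cyclotomic 39 ℤ) = 24 * X ^ 23 - 23 * X ^ 22 + 21 * X ^ 20 -
    20 * X ^ 19 + 18 * X ^ 17 - 17 * X ^ 16 + 15 * X ^ 14 - 14 * X ^ 13 + 12 * X ^ 11 -
    10 * X ^ 9 + 9 * X ^ 8 - 7 * X ^ 6 + 6 * X ^ 5 - 4 * X ^ 3 + 3 * X ^ 2 - 1 := by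
  rw [cyclotomic39]
  simp only [derivative_add, derivative_sub, derivative_X_pow, derivative_X, derivative_one]
  norm_num

theorem ne39 : (24 : ZMod 71) ≠ 0 := by decide

theorem cert39 : CertStmt 39 := by
  have hp : Fact (Nat.Prime 71) := ⟨by norm_num⟩
  have hirr := irr_mod 71 23 (by norm_num) red39 _ cert39_aux root39_aux
  have hmap : derivative (cyclotomic 39 ℚ) =
      (derivative (cyclotomic 39 ℤ)).map (Int.castRingHom ℚ) := by
    rw [← derivative_map, map_cyclotomic]
  unfold CertStmt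
  rw [hmap]
  have hcoeff0 : (derivative (cyclotomic 39 ℤ)).coeff 0 = -1 := by
    rw [derivative39]
    simp [coeff_one]
  have hdeg : (derivative (cyclotomic 39 ℤ)).natDegree = 23 := by
    rw [derivative39]
    compute_degree!
  have hlead : (derivative (cyclotomic 39 ℤ)).leadingCoeff = 24 := by
    rw [leadingCoeff, hdeg, derivative39]
    simp [coeff_one]
  apply irr_rat 71
  · intro r hr
    rw [C_dvd_iff_dvd_coeff] at hr
    have := hr 0
    rw [hcoeff0] at this
    exact isUnit_of_dvd_unit this (by simp)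
  · rw [hlead]
    exact_mod_cast ne39
  · have h1 : (derivative (cyclotomic 39 ℤ)).map (Int.castRingHom (ZMod 71)) =
        24 * (X ^ 23 - evL X red39) := by
      rw [derivative39]
      have h71 : (71 : (ZMod 71)[X]) = 0 := by
        have : ((71 : ℕ) : (ZMod 71)[X]) = 0 := CharP.cast_eq_zero _ _
        exact_mod_cast this
      simp only [Polynomial.map_add, Polynomial.map_sub, Polynomial.map_mul, Polynomial.map_pow,
        map_X, Polynomial.map_one, Polynomial.map_ofNat, evL, red39]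
      push_cast
      linear_combination (23 * X ^ 22 + 3 * X ^ 20 + 20 * X ^ 19 + 6 * X ^ 17 + 17 * X ^ 16 +
        9 * X ^ 14 + 14 * X ^ 13 + 12 * X ^ 11 + 10 * X ^ 9 + 15 * X ^ 8 + 7 * X ^ 6 +
        18 * X ^ 5 + 4 * X ^ 3 + 21 * X ^ 2 + 1) * h71
    rw [h1]
    have h2 : IsUnit (24 : (ZMod 71)[X]) := by
      have h3 : IsUnit (24 : ZMod 71) := isUnit_iff_ne_zero.mpr ne39
      rw [show (24 : (ZMod 71)[X]) = C 24 from (map_ofNat C 24).symm]
      exact h3.map (C : ZMod 71 →+* (ZMod 71)[X])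
    exact (irreducible_isUnit_mul h2).mpr hirr

end Pool.Agent.CYD.H94
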