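import Pool.Agent.Helper94_CYD.Rab

/-!
# From a certificate to irreducibility
-/

set_option autoImplicit false

namespace Pool.Agent.CYD.H94

open Polynomial

theorem evL_degree {F : Type} [CommRing F] [Nontrivial F] : ∀ a : List ℕ,
    (evL (X : F[X]) a).degree < a.length
  | [] => by simp [evL]
  | c :: a => by
    simp only [evL, List.length_cons]
    have ih := evL_degree (F := F) a
    refine (degree_add_le _ _).trans_lt ?_
    rw [max_lt_iff]
    constructor
    · have h1 : ((c : F[X])).degree ≤ 0 := by
        rw [← C_eq_natCast]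
        exact degree_C_le
      refine h1.trans_lt ?_
      exact_mod_cast Nat.succ_pos _
    · by_cases h0 : evL (X : F[X]) a = 0
      · rw [h0, mul_zero, degree_zero]
        exact WithBot.bot_lt_coe _
      · rw [mul_comm, degree_mul_X]
        have h2 : (evL (X : F[X]) a).degree = ((evL (X : F[X]) a).natDegree : WithBot ℕ) :=
          degree_eq_natDegree h0
        rw [h2] at ih ⊢
        have h3 : (evL (X : F[X]) a).natDegree < a.length := by exact_mod_cast ih
        exact_mod_cast Nat.succ_lt_succ h3

theorem evL_replicate {A : Type} [CommRing A] (y : A) : ∀ k : ℕ,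
    evL y (List.replicate k 0) = 0
  | 0 => by simp [evL]
  | k + 1 => by
    rw [List.replicate_succ]
    simp only [evL]
    rw [evL_replicate y k]
    simp

theorem foldr_cast (l : ℕ) (a : ℕ) : ∀ red : List ℕ,
    ((red.foldr (fun c s => (c + a * s) % l) 0 : ℕ) : ZMod l) = evL (a : ZMod l) red
  | [] => by simp [evL]
  | c :: red => by
    simp only [List.foldr_cons, evL]
    rw [cast_mod l (ZMod.natCast_self l)]
    push_cast
    rw [foldr_cast l a red]

theorem foldr_lt (l : ℕ) (hl : 0 < l) (a : ℕ) : ∀ red : List ℕ,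
    red.foldr (fun c s => (c + a * s) % l) 0 < l
  | [] => by simpa using hl
  | c :: red => by
    simp only [List.foldr_cons]
    exact Nat.mod_lt _ hl

theorem rootB_spec (l : ℕ) (hl : 0 < l) (red : List ℕ) (n : ℕ) : ∀ m : ℕ,
    rootB l red n m = true → ∀ a < m, (a : ZMod l) ^ n ≠ evL (a : ZMod l) red
  | 0, _, a, ha => by omega
  | m + 1, h, a, ha => by
    simp only [rootB, Bool.and_eq_true, Bool.not_eq_true'] at h
    rcases Nat.lt_succ_iff_lt_or_eq.mp ha with h1 | h1
    · exact rootB_spec l hl red n m h.1 a h1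
    · subst h1
      intro h2
      have h3 : ((a ^ n % l : ℕ) : ZMod l) =
          ((red.foldr (fun c s => (c + a * s) % l) 0 : ℕ) : ZMod l) := by
        rw [foldr_cast, ← h2, cast_mod l (ZMod.natCast_self l)]
        push_cast
        ring
      rw [ZMod.natCast_eq_natCast_iff'] at h3
      rw [Nat.mod_mod, Nat.mod_eq_of_lt (foldr_lt l hl a red)] at h3
      have h4 := h.2
      rw [h3] at h4
      simp at h4

/-- The certificate gives irreducibility modulo `l`. -/
theorem irr_mod (l n : ℕ) [hl : Fact l.Prime] (hn : n.Prime) (red : List ℕ) (e : List Bool)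
    (h1 : certB l n red (List.replicate n 0) (1 :: List.replicate (n - 1) 0)
      (0 :: 1 :: List.replicate (n - 2) 0) e = true)
    (h2 : rootB l red n l = true) : Irreducible (X ^ n - evL X red : (ZMod l)[X]) := by
  have hn2 := hn.two_le
  simp only [certB, Bool.and_eq_true, decide_eq_true_eq] at h1
  obtain ⟨⟨⟨⟨⟨hred, -⟩, -⟩, -⟩, he⟩, hfr⟩ := h1
  replace hred := Nat.eq_of_beq_eq_true hred
  replace he := Nat.eq_of_beq_eq_true he
  have hdeg : (evL (X : (ZMod l)[X]) red).degree < (n : WithBot ℕ) := by
    have := evL_degree (F := ZMod l) red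
    rwa [hred] at this
  have hmonic : (X ^ n - evL X red : (ZMod l)[X]).Monic := monic_X_pow_sub (by
    have h3 : (evL (X : (ZMod l)[X]) red).degree < (n : WithBot ℕ) := hdeg
    exact h3)
  have hnat : (X ^ n - evL X red : (ZMod l)[X]).natDegree = n := by
    rw [natDegree_sub_eq_left_of_natDegree_lt]
    · exact natDegree_X_pow n
    · rw [natDegree_X_pow]
      by_cases h0 : evL (X : (ZMod l)[X]) red = 0
      · rw [h0, natDegree_zero]
        omega
      · exact (natDegree_lt_iff_degree_lt h0).mpr hdeg
  have hnu : ¬ IsUnit (X ^ n - evL X red : (ZMod l)[X]) := by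
    intro hu
    have := natDegree_eq_zero_of_isUnit hu
    omega
  obtain ⟨p, hp, hpf⟩ := WfDvdMonoid.exists_irreducible_factor hnu hmonic.ne_zero
  have hcop : p ∣ X ^ (Nat.card (ZMod l)) ^ n - X := by
    have : Fact (Irreducible p) := ⟨hp⟩
    have : CharP (AdjoinRoot p) l :=
      charP_of_injective_algebraMap (algebraMap (ZMod l) (AdjoinRoot p)).injective l
    have hy : (AdjoinRoot.root p) ^ n = evL (AdjoinRoot.root p) red := by
      have h3 : aeval (AdjoinRoot.root p) (X ^ n - evL X red : (ZMod l)[X]) = 0 := by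
        rw [AdjoinRoot.aeval_eq, AdjoinRoot.mk_eq_zero]
        exact hpf
      rw [map_sub, map_pow, aeval_X, evL_polynomial, sub_eq_zero] at h3
      exact h3
    have hx : evL (AdjoinRoot.root p) (0 :: 1 :: List.replicate (n - 2) 0) =
        AdjoinRoot.root p := by
      simp only [evL]
      rw [evL_replicate]
      simp
    have hone : evL (AdjoinRoot.root p) (1 :: List.replicate (n - 1) 0) = 1 := by
      simp only [evL]
      rw [evL_replicate]
      simp
    have hxl : (0 :: 1 :: List.replicate (n - 2) 0).length = n := by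
      simp
      omega
    have honel : (1 :: List.replicate (n - 1) 0).length = n := by
      simp
      omega
    have hl0 : (l : AdjoinRoot p) = 0 := CharP.cast_eq_zero _ l
    obtain ⟨hr1, hr2⟩ := powL_spec l hl0 (AdjoinRoot.root p) n (by omega) red
      (List.replicate n 0) (0 :: 1 :: List.replicate (n - 2) 0) hred (by simp) hxl
      (evL_replicate _ _) hy e (0 :: 1 :: List.replicate (n - 2) 0) 1 hxl (by rw [pow_one])
    rw [hx, he] at hr2
    obtain ⟨-, hf⟩ := frobL_spec l (AdjoinRoot.root p) n (by omega) red (List.replicate n 0)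
      (powL l red (List.replicate n 0) (0 :: 1 :: List.replicate (n - 2) 0) e
        (0 :: 1 :: List.replicate (n - 2) 0)) (1 :: List.replicate (n - 1) 0) hred (by simp)
      hr1 honel hone (evL_replicate _ _) hy hr2 n (0 :: 1 :: List.replicate (n - 2) 0) hxl
    rw [hfr, hx] at hf
    rw [Nat.card_zmod, ← AdjoinRoot.mk_eq_zero, map_sub, map_pow, AdjoinRoot.mk_X, ← hf,
      sub_self]
  have hdvd := hp.natDegree_dvd_of_dvd_X_pow_card_pow_sub_X hcop
  rcases (Nat.dvd_prime hn).mp hdvd with h3 | h3
  · exfalso
    have h4 : p.degree = 1 := by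
      rw [degree_eq_natDegree hp.ne_zero, h3]
      rfl
    obtain ⟨a, ha⟩ := exists_root_of_degree_eq_one h4
    have h5 : eval a (X ^ n - evL X red : (ZMod l)[X]) = 0 := by
      obtain ⟨g, hg⟩ := hpf
      rw [hg, eval_mul, ha.eq_zero, zero_mul]
    have h6 := rootB_spec l hl.1.pos red n l h2 a.val (ZMod.val_lt a)
    rw [ZMod.natCast_zmod_val] at h6
    apply h6
    have h7 := evL_map (evalRingHom a) (X : (ZMod l)[X]) red
    simp only [coe_evalRingHom, eval_X] at h7
    rw [eval_sub, eval_pow, eval_X, h7, sub_eq_zero] at h5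
    exact h5
  · obtain ⟨g, hg⟩ := hpf
    have hg0 : g ≠ 0 := by
      rintro rfl
      rw [mul_zero] at hg
      exact hmonic.ne_zero hg
    have h4 : g.natDegree = 0 := by
      have h5 := congrArg natDegree hg
      rw [natDegree_mul hp.ne_zero hg0, hnat, h3] at h5
      omega
    have h5 : IsUnit g := by
      rw [isUnit_iff_degree_eq_zero, degree_eq_natDegree hg0, h4]
      rfl
    rw [hg]
    exact (irreducible_mul_isUnit h5).mpr hp

/-- Irreducibility modulo a prime gives irreducibility over the rationals. -/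
theorem irr_rat (l : ℕ) [hl : Fact l.Prime] (F : ℤ[X]) (hF : F.IsPrimitive)
    (hlc : ((F.leadingCoeff : ℤ) : ZMod l) ≠ 0)
    (h : Irreducible (F.map (Int.castRingHom (ZMod l)))) :
    Irreducible (F.map (Int.castRingHom ℚ)) := by
  rw [← IsPrimitive.Int.irreducible_iff_irreducible_map_cast hF]
  have hF0 : F ≠ 0 := hF.ne_zero
  refine ⟨fun hu => h.not_isUnit (hu.map (mapRingHom (Int.castRingHom (ZMod l)))), ?_⟩
  have main : ∀ a b : ℤ[X], F = a * b → IsUnit (a.map (Int.castRingHom (ZMod l))) →
      IsUnit a := by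
    intro a b hab hu
    have ha0 : a ≠ 0 := by
      rintro rfl
      exact hF0 (by rw [hab, zero_mul])
    have hb0 : b ≠ 0 := by
      rintro rfl
      exact hF0 (by rw [hab, mul_zero])
    have h1 : (Int.castRingHom (ZMod l)) a.leadingCoeff ≠ 0 := by
      intro h2
      apply hlc
      rw [hab, leadingCoeff_mul]
      push_cast
      have h3 : ((a.leadingCoeff : ℤ) : ZMod l) = 0 := h2
      rw [h3, zero_mul]
    have h2 : (a.map (Int.castRingHom (ZMod l))).natDegree = a.natDegree :=
      natDegree_map_of_leadingCoeff_ne_zero _ h1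
    have h3 := natDegree_eq_zero_of_isUnit hu
    rw [h2] at h3
    rw [eq_C_of_natDegree_eq_zero h3]
    apply IsUnit.map
    apply hF
    rw [← eq_C_of_natDegree_eq_zero h3]
    exact ⟨b, hab⟩
  intro a b hab
  have h1 := h.isUnit_or_isUnit (a := a.map (Int.castRingHom (ZMod l)))
    (b := b.map (Int.castRingHom (ZMod l))) (by rw [hab, Polynomial.map_mul])
  rcases h1 with h1 | h1
  · exact Or.inl (main a b hab h1)
  · exact Or.inr (main b a (by rw [hab, mul_comm]) h1)

end Pool.Agent.CYD.H94
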