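import Mathlib

/-!
# Irreducibility certificates for polynomials of prime degree over a prime field

Arithmetic in `F_l[X]/(f)` with lists of natural numbers; the Frobenius map is applied as a linear
map (table of the powers of `X^l`).
-/

set_option autoImplicit false

namespace Pool.Agent.CYD.H94

open Polynomial

section lists

variable {A : Type} [CommRing A]

/-- the value of a list of coefficients -/
def evL (y : A) : List ℕ → A
  | [] => 0
  | c :: l => (c : A) + y * evL y l

/-- the last entry of `p :: v` -/
def lastC : ℕ → List ℕ → ℕ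
  | p, [] => p
  | _, v0 :: v => lastC v0 v

/-- `c b + prev + X v + t r`, without the overflow term -/
def stepL (l c t : ℕ) : ℕ → List ℕ → List ℕ → List ℕ → List ℕ
  | prev, b0 :: b, v0 :: v, r0 :: r => ((c * b0 + prev + t * r0) % l) :: stepL l c t v0 b v r
  | _, _, _, _ => []

theorem cast_mod (l : ℕ) (hl : (l : A) = 0) (a : ℕ) : ((a % l : ℕ) : A) = (a : A) := by
  conv_rhs => rw [← Nat.mod_add_div a l]
  push_cast
  rw [hl]
  ring

theorem stepL_ev (l : ℕ) (hl : (l : A) = 0) (y : A) (c t : ℕ) : ∀ (n : ℕ) (prev : ℕ)
    (b v r : List ℕ), b.length = n → v.length = n → r.length = n →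
    evL y (stepL l c t prev b v r) + (lastC prev v : A) * y ^ n =
      c * evL y b + prev + y * evL y v + t * evL y r
  | 0, prev, [], [], [], _, _, _ => by simp [stepL, evL, lastC]
  | n + 1, prev, b0 :: b, v0 :: v, r0 :: r, hb, hv, hr => by
    have ih := stepL_ev l hl y c t n v0 b v r (by simpa using hb) (by simpa using hv)
      (by simpa using hr)
    simp only [stepL, evL, lastC]
    rw [cast_mod l hl]
    push_cast
    calc ((c : A) * b0 + prev + t * r0) + y * evL y (stepL l c t v0 b v r) +
          (lastC v0 v : A) * y ^ (n + 1)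
        = ((c : A) * b0 + prev + t * r0) + y * (evL y (stepL l c t v0 b v r) +
          (lastC v0 v : A) * y ^ n) := by ring
      _ = _ := by rw [ih]; ring

theorem stepL_length (l c t : ℕ) : ∀ (n : ℕ) (prev : ℕ) (b v r : List ℕ), b.length = n →
    v.length = n → r.length = n → (stepL l c t prev b v r).length = n
  | 0, prev, [], [], [], _, _, _ => by simp [stepL]
  | n + 1, prev, b0 :: b, v0 :: v, r0 :: r, hb, hv, hr => by
    simp only [stepL, List.length_cons]
    rw [stepL_length l c t n v0 b v r (by simpa using hb) (by simpa using hv) (by simpa using hr)]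

/-- product -/
def mulL (l : ℕ) (red zero : List ℕ) (b : List ℕ) : List ℕ → List ℕ
  | [] => zero
  | c :: a => (fun v => stepL l c (lastC 0 v) 0 b v red) (mulL l red zero b a)

theorem mulL_spec (l : ℕ) (hl : (l : A) = 0) (y : A) (n : ℕ) (hn : 0 < n) (red zero b : List ℕ)
    (hred : red.length = n) (hzero : zero.length = n) (hb : b.length = n)
    (hz : evL y zero = 0) (hy : y ^ n = evL y red) : ∀ a : List ℕ,
    (mulL l red zero b a).length = n ∧ evL y (mulL l red zero b a) = evL y a * evL y b
  | [] => by
    simp only [mulL, evL]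
    exact ⟨hzero, by rw [hz]; ring⟩
  | c :: a => by
    obtain ⟨h1, h2⟩ := mulL_spec l hl y n hn red zero b hred hzero hb hz hy a
    simp only [mulL, evL]
    refine ⟨stepL_length _ _ _ n _ _ _ _ hb h1 hred, ?_⟩
    have h3 := stepL_ev l hl y c (lastC 0 (mulL l red zero b a)) n 0 b _ red hb h1 hred
    rw [h2, ← hy] at h3
    push_cast at h3
    linear_combination h3

/-- power: the bits of the exponent, highest bit first -/
def powL (l : ℕ) (red zero : List ℕ) (b : List ℕ) : List Bool → List ℕ → List ℕ
  | [], v => v
  | false :: e, v => powL l red zero b e (mulL l red zero v v)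
  | true :: e, v => powL l red zero b e (mulL l red zero b (mulL l red zero v v))

/-- the exponent with given bits -/
def bitsN : List Bool → ℕ → ℕ
  | [], m => m
  | false :: e, m => bitsN e (2 * m)
  | true :: e, m => bitsN e (2 * m + 1)

theorem powL_spec (l : ℕ) (hl : (l : A) = 0) (y : A) (n : ℕ) (hn : 0 < n) (red zero b : List ℕ)
    (hred : red.length = n) (hzero : zero.length = n) (hb : b.length = n)
    (hz : evL y zero = 0) (hy : y ^ n = evL y red) : ∀ (e : List Bool) (v : List ℕ) (m : ℕ),
    v.length = n → evL y v = evL y b ^ m →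
    (powL l red zero b e v).length = n ∧ evL y (powL l red zero b e v) = evL y b ^ (bitsN e m)
  | [], v, m, hv, hm => ⟨hv, hm⟩
  | false :: e, v, m, hv, hm => by
    obtain ⟨h1, h2⟩ := mulL_spec l hl y n hn red zero v hred hzero hv hz hy v
    refine powL_spec l hl y n hn red zero b hred hzero hb hz hy e _ (2 * m) h1 ?_
    rw [h2, hm, ← pow_add]
    congr 1
    ring
  | true :: e, v, m, hv, hm => by
    obtain ⟨h1, h2⟩ := mulL_spec l hl y n hn red zero v hred hzero hv hz hy v
    obtain ⟨h3, h4⟩ := mulL_spec l hl y n hn red zero b hred hzero hb hz hy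
      (mulL l red zero v v)
    refine powL_spec l hl y n hn red zero b hred hzero hb hz hy e _ (2 * m + 1) h3 ?_
    rw [h4, h2, hm, ← pow_add, ← pow_succ]
    congr 1
    ring

/-- the table of the powers of `r`, times `v` -/
def tableL (l : ℕ) (red zero : List ℕ) (r : List ℕ) : ℕ → List ℕ → List (List ℕ)
  | 0, _ => []
  | m + 1, v => v :: tableL l red zero r m (mulL l red zero r v)

/-- `c a + b` -/
def axpyL (l c : ℕ) : List ℕ → List ℕ → List ℕ
  | a0 :: a, b0 :: b => ((c * a0 + b0) % l) :: axpyL l c a b
  | _, _ => []

theorem axpyL_spec (l : ℕ) (hl : (l : A) = 0) (y : A) (c : ℕ) : ∀ (n : ℕ) (a b : List ℕ),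
    a.length = n → b.length = n → (axpyL l c a b).length = n ∧
      evL y (axpyL l c a b) = c * evL y a + evL y b
  | 0, [], [], _, _ => by simp [axpyL, evL]
  | n + 1, a0 :: a, b0 :: b, ha, hb => by
    obtain ⟨h1, h2⟩ := axpyL_spec l hl y c n a b (by simpa using ha) (by simpa using hb)
    simp only [axpyL, evL, List.length_cons]
    refine ⟨by rw [h1], ?_⟩
    rw [cast_mod l hl, h2]
    push_cast
    ring

/-- linear combination of the rows of a table -/
def linL (l : ℕ) (zero : List ℕ) : List ℕ → List (List ℕ) → List ℕ
  | c :: a, v :: T => axpyL l c v (linL l zero a T)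
  | _, _ => zero

theorem linL_spec (l : ℕ) (hl : (l : A) = 0) (y : A) (n : ℕ) (hn : 0 < n)
    (red zero r : List ℕ) (hred : red.length = n) (hzero : zero.length = n) (hr : r.length = n)
    (hz : evL y zero = 0) (hy : y ^ n = evL y red) : ∀ (a : List ℕ) (m : ℕ) (v : List ℕ),
    a.length ≤ m → v.length = n →
    (linL l zero a (tableL l red zero r m v)).length = n ∧
      evL y (linL l zero a (tableL l red zero r m v)) = evL (evL y r) a * evL y v
  | [], m, v, _, _ => by
    have h1 : linL l zero [] (tableL l red zero r m v) = zero := by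
      cases m <;> simp [linL]
    rw [h1]
    simp only [evL]
    exact ⟨hzero, by rw [hz]; ring⟩
  | c :: a, 0, v, ha, _ => by simp at ha
  | c :: a, m + 1, v, ha, hv => by
    obtain ⟨h1, h2⟩ := mulL_spec l hl y n hn red zero r hred hzero hr hz hy v
    obtain ⟨h3, h4⟩ := linL_spec l hl y n hn red zero r hred hzero hr hz hy a m
      (mulL l red zero r v) (by simpa using ha) h1
    obtain ⟨h5, h6⟩ := axpyL_spec l hl y c n v
      (linL l zero a (tableL l red zero r m (mulL l red zero r v))) hv h3
    simp only [tableL, linL, evL]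
    refine ⟨h5, ?_⟩
    rw [h6, h4, h2]
    ring

/-- the iterated Frobenius map -/
def frobL (l : ℕ) (zero : List ℕ) (T : List (List ℕ)) : ℕ → List ℕ → List ℕ
  | 0, v => v
  | k + 1, v => frobL l zero T k (linL l zero v T)

/-- The ring homomorphisms act on the point. -/
theorem evL_map {B : Type} [CommRing B] (φ : A →+* B) (y : A) : ∀ a : List ℕ,
    φ (evL y a) = evL (φ y) a
  | [] => by simp [evL]
  | c :: a => by
    simp only [evL, map_add, map_mul, map_natCast]
    rw [evL_map φ y a]

theorem frobL_spec (l : ℕ) [hl : Fact l.Prime] [CharP A l] (y : A) (n : ℕ) (hn : 0 < n)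
    (red zero r one : List ℕ) (hred : red.length = n) (hzero : zero.length = n)
    (hr : r.length = n) (hone : one.length = n) (h1 : evL y one = 1)
    (hz : evL y zero = 0) (hy : y ^ n = evL y red) (hr1 : evL y r = y ^ l) :
    ∀ (k : ℕ) (v : List ℕ), v.length = n →
    (frobL l zero (tableL l red zero r n one) k v).length = n ∧
      evL y (frobL l zero (tableL l red zero r n one) k v) = evL y v ^ l ^ k
  | 0, v, hv => by
    simp only [frobL, pow_zero, pow_one]
    exact ⟨hv, trivial⟩
  | k + 1, v, hv => by
    have hl0 : (l : A) = 0 := CharP.cast_eq_zero A l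
    obtain ⟨h2, h3⟩ := linL_spec l hl0 y n hn red zero r hred hzero hr hz hy v n one
      (le_of_eq hv) hone
    obtain ⟨h4, h5⟩ := frobL_spec l y n hn red zero r one hred hzero hr hone h1 hz hy hr1 k _ h2
    refine ⟨h4, ?_⟩
    simp only [frobL]
    rw [h5, h3, h1, mul_one, hr1]
    have h6 : evL (y ^ l) v = evL y v ^ l := by
      have := evL_map (frobenius A l) y v
      simp only [frobenius_def] at this
      exact this.symm
    rw [h6, ← pow_mul, ← pow_succ']

end lists

/-- the check of a certificate -/
def certB (l n : ℕ) (red zero one x : List ℕ) (e : List Bool) : Bool :=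
  Nat.beq red.length n && Nat.beq zero.length n && Nat.beq one.length n && Nat.beq x.length n &&
    Nat.beq (bitsN e 1) l &&
    decide (frobL l zero (tableL l red zero (powL l red zero x e x) n one) n x = x)

/-- the value of the polynomial `X^n - red` at `a`, for the root test -/
def rootB (l : ℕ) (red : List ℕ) (n : ℕ) : ℕ → Bool
  | 0 => true
  | a + 1 => rootB l red n a && !(Nat.beq ((a ^ n) % l) ((red.foldr (fun c s => (c + a * s) % l) 0)))

/-- The polynomial with coefficients `c`. -/
theorem evL_polynomial {F : Type} [CommRing F] (A : Type) [CommRing A] [Algebra F A] (y : A) :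
    ∀ a : List ℕ, aeval y (evL (X : F[X]) a) = evL y a := by
  intro a
  have := evL_map (A := F[X]) (aeval (R := F) y : F[X] →ₐ[F] A).toRingHom (X : F[X]) a
  simpa using this

end Pool.Agent.CYD.H94
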